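import Mathlib

set_option autoImplicit false

namespace Pool.Agent.Results.MP_9fd99d_al.VerbalQuotientRF

open Group

/-- The verbal subgroup `W(G)`: the subgroup generated by all values in `G` of the words in `W`. -/
def verbal (W : Set (FreeGroup ℕ)) (G : Type) [Group G] : Subgroup G :=
  Subgroup.closure {g : G | ∃ w ∈ W, ∃ f : ℕ → G, FreeGroup.lift f w = g}

/-- `G` belongs to the variety defined by the laws `w = 1`, `w ∈ W`. -/
def InVariety (W : Set (FreeGroup ℕ)) (G : Type) [Group G] : Prop :=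
  ∀ w ∈ W, ∀ f : ℕ → G, FreeGroup.lift f w = 1

theorem lift_comp {X G H : Type} [Group G] [Group H] (φ : G →* H) (f : X → G) (w : FreeGroup X) :
    φ (FreeGroup.lift f w) = FreeGroup.lift (fun i => φ (f i)) w := by
  have : φ.comp (FreeGroup.lift f) = FreeGroup.lift (fun i => φ (f i)) := by
    refine FreeGroup.ext_hom _ _ (fun i => ?_)
    rw [MonoidHom.comp_apply, FreeGroup.lift_apply_of, FreeGroup.lift_apply_of]
  rw [← this]; rfl

theorem verbal_map_le (W : Set (FreeGroup ℕ)) {G H : Type} [Group G] [Group H] (φ : G →* H) :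
    (verbal W G).map φ ≤ verbal W H := by
  rw [verbal, MonoidHom.map_closure, Subgroup.closure_le]
  rintro _ ⟨g, ⟨w, hw, f, rfl⟩, rfl⟩
  exact Subgroup.subset_closure ⟨w, hw, fun i => φ (f i), (lift_comp φ f w).symm⟩

instance verbal_normal (W : Set (FreeGroup ℕ)) (G : Type) [Group G] : (verbal W G).Normal := by
  constructor
  intro n hn g
  have h := verbal_map_le W (MulAut.conj g).toMonoidHom (Subgroup.mem_map_of_mem _ hn)
  exact h

theorem verbal_eq_bot_of_inVariety {W : Set (FreeGroup ℕ)} {G : Type} [Group G]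
    (h : InVariety W G) : verbal W G = ⊥ := by
  rw [eq_bot_iff, verbal, Subgroup.closure_le]
  rintro _ ⟨w, hw, f, rfl⟩
  exact h w hw f

theorem inVariety_quotient (W : Set (FreeGroup ℕ)) (G : Type) [Group G] :
    InVariety W (G ⧸ verbal W G) := by
  intro w hw f
  have hs : ∀ i, ∃ g : G, QuotientGroup.mk' (verbal W G) g = f i :=
    fun i => QuotientGroup.mk'_surjective _ (f i)
  choose g hg using hs
  have h1 : f = fun i => QuotientGroup.mk' (verbal W G) (g i) := funext fun i => (hg i).symm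
  rw [h1, ← lift_comp]
  exact (QuotientGroup.eq_one_iff _).mpr (Subgroup.subset_closure ⟨w, hw, g, rfl⟩)

theorem rf_of_injective {G H : Type} [Group G] [Group H] (φ : G →* H)
    (hφ : Function.Injective φ) (h : ResiduallyFinite H) : ResiduallyFinite G := by
  rw [residuallyFinite_iff_forall_finiteIndexNormalSubgroup]
  intro g hg
  apply hφ
  rw [map_one]
  exact eq_one_iff_forall_finiteIndexNormalSubroup (φ g) fun K ↦ hg (K.comap φ)

/-! ### Free groups are residually finite -/

section free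

variable {X : Type}

open Classical in
/-- The finite set of suffix products of a word. -/
noncomputable def suf (L : List (X × Bool)) : Finset (FreeGroup X) :=
  (L.tails.map FreeGroup.mk).toFinset

theorem mem_suf (L L' : List (X × Bool)) (h : L' <:+ L) : FreeGroup.mk L' ∈ suf L := by
  classical
  simp only [suf, List.mem_toFinset, List.mem_map, List.mem_tails]
  exact ⟨L', h, rfl⟩

/-- Left multiplication by a generator as a bijection between two subsets of the suffix products. -/
def pact (L : List (X × Bool)) (x : X) :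
    {u : {u // u ∈ suf L} // FreeGroup.of x * u.1 ∈ suf L} ≃
      {u : {u // u ∈ suf L} // (FreeGroup.of x)⁻¹ * u.1 ∈ suf L} where
  toFun := fun u => ⟨⟨FreeGroup.of x * u.1.1, u.2⟩, by simp⟩
  invFun := fun u => ⟨⟨(FreeGroup.of x)⁻¹ * u.1.1, u.2⟩, by simp⟩
  left_inv := fun u => by ext; simp
  right_inv := fun u => by ext; simp

open Classical in
/-- The permutation by which a generator acts on the suffix products. -/
noncomputable def act1 (L : List (X × Bool)) (x : X) : Equiv.Perm {u // u ∈ suf L} :=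
  (pact L x).extendSubtype

theorem act1_apply (L : List (X × Bool)) (x : X) (u : {u // u ∈ suf L})
    (h : FreeGroup.of x * u.1 ∈ suf L) : act1 L x u = ⟨FreeGroup.of x * u.1, h⟩ := by
  classical
  exact Equiv.extendSubtype_apply_of_mem (pact L x) u h

theorem act_suffix (L : List (X × Bool)) : ∀ (L' : List (X × Bool)) (_ : L' <:+ L),
    (FreeGroup.lift (act1 L) (FreeGroup.mk L') ⟨1, mem_suf L [] (List.nil_suffix)⟩).1 =
      FreeGroup.mk L' := by
  intro L'
  induction L' with
  | nil =>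
    intro h
    rw [← FreeGroup.one_eq_mk, map_one]
    rfl
  | cons a L' ih =>
    intro h
    have h' : L' <:+ L := (List.suffix_cons a L').trans h
    obtain ⟨x, b⟩ := a
    have hmk : FreeGroup.mk ((x, b) :: L') = FreeGroup.mk [(x, b)] * FreeGroup.mk L' := by
      rw [FreeGroup.mul_mk]; rfl
    have hmem := mem_suf L _ h
    have ih2 : FreeGroup.lift (act1 L) (FreeGroup.mk L') ⟨1, mem_suf L [] (List.nil_suffix)⟩ =
      ⟨FreeGroup.mk L', mem_suf L L' h'⟩ := Subtype.ext (ih h')
    rw [hmk, map_mul, Equiv.Perm.mul_apply, ih2]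
    rw [hmk] at hmem
    cases b with
    | true =>
      have h1 : FreeGroup.mk [(x, true)] = FreeGroup.of x := rfl
      rw [h1] at hmem
      rw [h1, FreeGroup.lift_apply_of, act1_apply L x _ hmem]
    | false =>
      have h1 : FreeGroup.mk [(x, false)] = (FreeGroup.of x)⁻¹ := rfl
      rw [h1] at hmem
      rw [h1, map_inv, FreeGroup.lift_apply_of]
      have h2 : act1 L x ⟨(FreeGroup.of x)⁻¹ * FreeGroup.mk L', hmem⟩ =
          ⟨FreeGroup.mk L', mem_suf L L' h'⟩ := by
        rw [act1_apply L x _ (by simpa using mem_suf L L' h')]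
        apply Subtype.ext
        simp
      rw [← h2, ← Equiv.Perm.mul_apply, inv_mul_cancel]
      rfl

theorem free_sep (w : FreeGroup X) (hw : w ≠ 1) :
    ∃ (B : Type) (_ : Fintype B) (_ : DecidableEq B) (φ : FreeGroup X →* Equiv.Perm B), φ w ≠ 1 := by
  classical
  obtain ⟨L, rfl⟩ : ∃ L, FreeGroup.mk L = w := Quot.exists_rep w
  refine ⟨{u // u ∈ suf L}, inferInstance, inferInstance, FreeGroup.lift (act1 L), ?_⟩
  intro h
  have h1 := act_suffix L L List.suffix_rfl
  rw [h] at h1
  exact hw h1.symm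

theorem free_rf : ResiduallyFinite (FreeGroup X) := by
  apply residuallyFinite_of_forall_exists_finite_monoidHom
  intro g hg
  obtain ⟨B, h1, h2, φ, hφ⟩ := free_sep g hg
  exact ⟨Equiv.Perm B, inferInstance, inferInstance, φ, hφ⟩

end free

/-! ### The permutational wreath product with an alternating group -/

section wreath

variable (Ω : Type) [Fintype Ω] [DecidableEq Ω]

/-- Permutation action of the alternating group on functions. -/
def act (E : Type) [Group E] : alternatingGroup Ω →* MulAut (Ω → E) where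
  toFun σ :=
    { toFun := fun a i => a ((σ : Equiv.Perm Ω)⁻¹ i)
      invFun := fun a i => a ((σ : Equiv.Perm Ω) i)
      left_inv := fun a => by funext i; simp
      right_inv := fun a => by funext i; simp
      map_mul' := fun a b => by funext i; simp }
  map_one' := by
    ext a i
    simp
  map_mul' σ τ := by
    ext a i
    simp

/-- The permutational wreath product of `E` by the alternating group on `Ω`. -/
abbrev Wr (E : Type) [Group E] : Type := SemidirectProduct (Ω → E) (alternatingGroup Ω) (act Ω E)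

/-- Functoriality of the wreath product. -/
def mapW {E F : Type} [Group E] [Group F] (h : E →* F) : Wr Ω E →* Wr Ω F :=
  SemidirectProduct.map (h.compLeft Ω) (MonoidHom.id _) (fun σ => by ext a i; rfl)

instance finW (E : Type) [Group E] [Finite E] : Finite (Wr Ω E) :=
  Finite.of_equiv _ (SemidirectProduct.equivProd (φ := act Ω E)).symm

theorem rf_wr (E : Type) [Group E] (hE : ResiduallyFinite E) : ResiduallyFinite (Wr Ω E) := by
  apply residuallyFinite_of_forall_exists_finite_monoidHom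
  intro g hg
  by_cases h : g.right = 1
  · have h1 : ∃ i, g.left i ≠ 1 := by
      by_contra hc
      push Not at hc
      exact hg (SemidirectProduct.ext (funext hc) h)
    obtain ⟨i, hi⟩ := h1
    obtain ⟨N, hN⟩ := exists_finiteIndexNormalSubgroup_notMem (g.left i) hi
    refine ⟨Wr Ω (E ⧸ N.toSubgroup), inferInstance, inferInstance,
      mapW Ω (QuotientGroup.mk' N.toSubgroup), ?_⟩
    intro hmem
    have h2 : (mapW Ω (QuotientGroup.mk' N.toSubgroup) g).left i = 1 := by rw [hmem]; rfl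
    have h3 : QuotientGroup.mk' N.toSubgroup (g.left i) = 1 := h2
    exact hN ((QuotientGroup.eq_one_iff _).mp h3)
  · exact ⟨alternatingGroup Ω, inferInstance, inferInstance, SemidirectProduct.rightHom, h⟩

variable {E : Type} [Group E] (S : Subgroup E) [S.Normal]

/-- The ambient group. -/
abbrev Amb : Type := Wr Ω E × (E ⧸ S)

/-- The subgroup of pairs whose second entry is the common class of all coordinates of the
first entry. -/
def Gam : Subgroup (Amb Ω S) where
  carrier := {x | ∀ i, (QuotientGroup.mk' S (x.1.left i)) = x.2}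
  one_mem' := fun i => rfl
  mul_mem' := by
    intro x y hx hy i
    have h1 : (x * y).1.left i = x.1.left i * y.1.left ((x.1.right : Equiv.Perm Ω)⁻¹ i) := rfl
    rw [h1, map_mul, hx i, hy _]
    rfl
  inv_mem' := by
    intro x hx i
    have h1 : (x⁻¹).1.left i = (x.1.left ((x.1.right : Equiv.Perm Ω) i))⁻¹ := by
      rw [Prod.fst_inv, SemidirectProduct.inv_left]
      simp [act]
      rfl
    rw [h1, map_inv, hx _]
    rfl

/-- The scalar embedding. -/
def D : E →* Amb Ω S :=
  (SemidirectProduct.inl.comp (Pi.constMonoidHom Ω E)).prod (QuotientGroup.mk' S)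

/-- The alternating group in the ambient group. -/
def J : alternatingGroup Ω →* Amb Ω S :=
  SemidirectProduct.inr.prod 1

/-- The vector of powers of a fixed element with prescribed exponents. -/
def pw (s : E) : Multiplicative (Ω → ℤ) →* (Ω → E) where
  toFun v := fun i => s ^ ((Multiplicative.toAdd v : Ω → ℤ) i)
  map_one' := by funext i; simp
  map_mul' := by
    intro v w
    funext i
    simp [zpow_add]

/-- Powers of a fixed element in prescribed coordinates. -/
def kap (s : E) : Multiplicative (Ω → ℤ) →* Amb Ω S :=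
  (SemidirectProduct.inl.comp (pw Ω s)).prod 1

/-- The elementary vector. -/
def ev (i : Ω) : Multiplicative (Ω → ℤ) := Multiplicative.ofAdd (Pi.single i 1)

/-- The generating set. -/
def gens : Set (Amb Ω S) :=
  Set.range (D Ω S) ∪ Set.range (J Ω S) ∪ {x | ∃ s ∈ S, ∃ i j, x = kap Ω S s (ev Ω i * (ev Ω j)⁻¹)}

/-- The group used in the construction. -/
def GG : Subgroup (Amb Ω S) := Subgroup.closure (gens Ω S)

theorem GG_le_Gam : GG Ω S ≤ Gam Ω S := by
  rw [GG, Subgroup.closure_le]
  rintro x ((⟨e, rfl⟩ | ⟨σ, rfl⟩) | ⟨s, hs, i, j, rfl⟩)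
  · intro i; rfl
  · intro i; rfl
  · intro l
    change QuotientGroup.mk' S (s ^ ((Multiplicative.toAdd (ev Ω i * (ev Ω j)⁻¹) : Ω → ℤ) l)) = 1
    rw [map_zpow]
    have : QuotientGroup.mk' S s = 1 := (QuotientGroup.eq_one_iff _).mpr hs
    rw [this, one_zpow]

theorem rf_GG [Nonempty Ω] (hE : ResiduallyFinite E) : ResiduallyFinite (GG Ω S) := by
  have h := rf_wr Ω E hE
  refine rf_of_injective ((MonoidHom.fst (Wr Ω E) (E ⧸ S)).comp (GG Ω S).subtype) ?_ h
  rw [injective_iff_map_eq_one]
  intro x hx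
  have hx1 : x.1.1 = 1 := hx
  have hx2 := GG_le_Gam Ω S x.2 (Classical.arbitrary Ω)
  apply Subtype.ext
  apply Prod.ext
  · exact hx1
  · rw [← hx2, hx1]
    rfl

theorem D_mem (e : E) : D Ω S e ∈ GG Ω S :=
  Subgroup.subset_closure (Or.inl (Or.inl ⟨e, rfl⟩))

theorem J_mem (σ : alternatingGroup Ω) : J Ω S σ ∈ GG Ω S :=
  Subgroup.subset_closure (Or.inl (Or.inr ⟨σ, rfl⟩))

theorem kap_mem (s : E) (hs : s ∈ S) (i j : Ω) : kap Ω S s (ev Ω i * (ev Ω j)⁻¹) ∈ GG Ω S :=
  Subgroup.subset_closure (Or.inr ⟨s, hs, i, j, rfl⟩)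

/-- The image of the verbal subgroup in the ambient group. -/
def TT (W : Set (FreeGroup ℕ)) : Subgroup (Amb Ω S) :=
  (verbal W (GG Ω S)).map (GG Ω S).subtype

theorem TT_conj (W : Set (FreeGroup ℕ)) (x t : Amb Ω S) (hx : x ∈ GG Ω S) (ht : t ∈ TT Ω S W) :
    x * t * x⁻¹ ∈ TT Ω S W := by
  obtain ⟨u, hu, rfl⟩ := ht
  exact ⟨(⟨x, hx⟩ : GG Ω S) * u * (⟨x, hx⟩ : GG Ω S)⁻¹,
    (verbal_normal W (GG Ω S)).conj_mem u hu ⟨x, hx⟩, rfl⟩

theorem J_mem_TT (W : Set (FreeGroup ℕ)) (hA : verbal W (alternatingGroup Ω) = ⊤)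
    (σ : alternatingGroup Ω) : J Ω S σ ∈ TT Ω S W := by
  have h1 := verbal_map_le W ((J Ω S).codRestrict (GG Ω S) (J_mem Ω S))
  rw [hA] at h1
  exact ⟨(J Ω S).codRestrict (GG Ω S) (J_mem Ω S) σ,
    h1 (Subgroup.mem_map_of_mem _ (Subgroup.mem_top σ)), rfl⟩

/-- Permutation of coordinates of integer vectors. -/
def pm (σ : Equiv.Perm Ω) : Multiplicative (Ω → ℤ) →* Multiplicative (Ω → ℤ) where
  toFun v := Multiplicative.ofAdd (fun i => (Multiplicative.toAdd v : Ω → ℤ) (σ⁻¹ i))
  map_one' := rfl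
  map_mul' _ _ := rfl

omit [Fintype Ω] in
theorem pm_ev (σ : Equiv.Perm Ω) (i : Ω) : pm Ω σ (ev Ω i) = ev Ω (σ i) := by
  have h : ∀ j, (Pi.single i (1 : ℤ) : Ω → ℤ) (σ⁻¹ j) = (Pi.single (σ i) (1 : ℤ) : Ω → ℤ) j := by
    intro j
    simp only [Pi.single_apply]
    congr 1
    rw [Equiv.Perm.inv_eq_iff_eq]
  exact congrArg Multiplicative.ofAdd (funext h)

theorem J_kap (s : E) (σ : alternatingGroup Ω) (v : Multiplicative (Ω → ℤ)) :
    J Ω S σ * kap Ω S s v * (J Ω S σ)⁻¹ = kap Ω S s (pm Ω σ v) := by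
  rw [mul_inv_eq_iff_eq_mul]
  apply Prod.ext
  · apply SemidirectProduct.ext
    · funext i
      change (1 : E) * s ^ ((Multiplicative.toAdd v : Ω → ℤ) ((σ : Equiv.Perm Ω)⁻¹ i)) =
        s ^ ((Multiplicative.toAdd v : Ω → ℤ) ((σ : Equiv.Perm Ω)⁻¹ i)) * 1
      rw [one_mul, mul_one]
    · simp [kap, J]
  · simp [kap, J]

theorem exists_even (i j k : Ω) (hij : i ≠ j) (hik : i ≠ k) (hjk : j ≠ k) (h5 : 5 ≤ Fintype.card Ω) :
    ∃ σ : alternatingGroup Ω, (σ : Equiv.Perm Ω) i = j ∧ (σ : Equiv.Perm Ω) k = k := by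
  have h1 : ∃ l, l ∉ ({i, j, k} : Finset Ω) := by
    by_contra hc
    push Not at hc
    have h2 : (Finset.univ : Finset Ω) ⊆ {i, j, k} := fun x _ => hc x
    have h3 := Finset.card_le_card h2
    have h4 : Finset.card ({i, j, k} : Finset Ω) ≤ 3 := Finset.card_le_three
    rw [Finset.card_univ] at h3
    omega
  obtain ⟨l, hl⟩ := h1
  simp only [Finset.mem_insert, Finset.mem_singleton, not_or] at hl
  obtain ⟨hli, hlj, hlk⟩ := hl
  refine ⟨⟨Equiv.swap i l * Equiv.swap i j, ?_⟩, ?_, ?_⟩
  · rw [Equiv.Perm.mem_alternatingGroup, map_mul, Equiv.Perm.sign_swap (Ne.symm hli),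
      Equiv.Perm.sign_swap hij]
    rfl
  · change (Equiv.swap i l * Equiv.swap i j) i = j
    rw [Equiv.Perm.mul_apply, Equiv.swap_apply_left,
      Equiv.swap_apply_of_ne_of_ne (Ne.symm hij) (Ne.symm hlj)]
  · change (Equiv.swap i l * Equiv.swap i j) k = k
    rw [Equiv.Perm.mul_apply, Equiv.swap_apply_of_ne_of_ne (Ne.symm hik) (Ne.symm hjk),
      Equiv.swap_apply_of_ne_of_ne (Ne.symm hik) (Ne.symm hlk)]

theorem kap_mem_TT (W : Set (FreeGroup ℕ)) (hA : verbal W (alternatingGroup Ω) = ⊤)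
    (h5 : 5 ≤ Fintype.card Ω) (s : E) (hs : s ∈ S) (i j : Ω) :
    kap Ω S s (ev Ω i * (ev Ω j)⁻¹) ∈ TT Ω S W := by
  by_cases hij : i = j
  · subst hij
    rw [mul_inv_cancel, map_one]
    exact Subgroup.one_mem _
  · have h1 : ∃ k, k ∉ ({i, j} : Finset Ω) := by
      by_contra hc
      push Not at hc
      have h2 : (Finset.univ : Finset Ω) ⊆ {i, j} := fun x _ => hc x
      have h3 := Finset.card_le_card h2
      have h4 : Finset.card ({i, j} : Finset Ω) ≤ 2 := Finset.card_le_two
      rw [Finset.card_univ] at h3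
      omega
    obtain ⟨k, hk⟩ := h1
    simp only [Finset.mem_insert, Finset.mem_singleton, not_or] at hk
    obtain ⟨σ, hσ1, hσ2⟩ := exists_even Ω i j k hij (Ne.symm hk.1) (Ne.symm hk.2) h5
    have hx := kap_mem Ω S s hs i k
    have hJ := J_mem_TT Ω S W hA σ
    have h2 := Subgroup.mul_mem _ (TT_conj Ω S W _ _ hx hJ) (Subgroup.inv_mem _ hJ)
    have h3 : kap Ω S s (ev Ω i * (ev Ω k)⁻¹) * J Ω S σ * (kap Ω S s (ev Ω i * (ev Ω k)⁻¹))⁻¹ *
        (J Ω S σ)⁻¹ = kap Ω S s (ev Ω i * (ev Ω j)⁻¹) := by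
      have h4 : J Ω S σ * (kap Ω S s (ev Ω i * (ev Ω k)⁻¹))⁻¹ * (J Ω S σ)⁻¹ =
          kap Ω S s (ev Ω j * (ev Ω k)⁻¹)⁻¹ := by
        rw [← map_inv (kap Ω S s), J_kap, map_inv (pm Ω (σ : Equiv.Perm Ω)),
          map_mul (pm Ω (σ : Equiv.Perm Ω)), map_inv (pm Ω (σ : Equiv.Perm Ω)), pm_ev, pm_ev,
          hσ1, hσ2]
      calc _ = kap Ω S s (ev Ω i * (ev Ω k)⁻¹) *
            (J Ω S σ * (kap Ω S s (ev Ω i * (ev Ω k)⁻¹))⁻¹ * (J Ω S σ)⁻¹) := by group
        _ = kap Ω S s (ev Ω i * (ev Ω k)⁻¹) * kap Ω S s (ev Ω j * (ev Ω k)⁻¹)⁻¹ := by rw [h4]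
        _ = _ := by
          rw [← map_mul]
          congr 1
          group
    rw [← h3]
    exact h2

theorem D_mem_TT (W : Set (FreeGroup ℕ)) (hA : verbal W (alternatingGroup Ω) = ⊤)
    (h5 : 5 ≤ Fintype.card Ω) (hS : ∀ s ∈ S, s ^ (Fintype.card Ω) = 1) (s : E) (hs : s ∈ S) :
    D Ω S s ∈ TT Ω S W := by
  have : Nonempty Ω := Fintype.card_pos_iff.mp (by omega)
  let j₀ : Ω := Classical.arbitrary Ω
  have h1 : D Ω S s = kap Ω S s (∏ i, ev Ω i) := by
    have h2 : (∏ i, ev Ω i) = Multiplicative.ofAdd (fun _ : Ω => (1 : ℤ)) := by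
      have h3 : (∏ i, ev Ω i) = Multiplicative.ofAdd (∑ i, (Pi.single i (1 : ℤ) : Ω → ℤ)) := rfl
      rw [h3]
      congr 1
      funext j
      simp
    rw [h2]
    apply Prod.ext
    · apply SemidirectProduct.ext
      · funext i
        change s = s ^ (1 : ℤ)
        rw [zpow_one]
      · rfl
    · exact (QuotientGroup.eq_one_iff _).mpr hs
  have h2 : (∏ i, ev Ω i) = (∏ i, (ev Ω i * (ev Ω j₀)⁻¹)) * (ev Ω j₀) ^ (Fintype.card Ω) := by
    rw [Finset.prod_mul_distrib, Finset.prod_const, Finset.card_univ, inv_pow, mul_assoc,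
      inv_mul_cancel, mul_one]
  have h3 : (∏ i, ev Ω i) ∈ (TT Ω S W).comap (kap Ω S s) := by
    rw [h2]
    apply Subgroup.mul_mem
    · exact Subgroup.prod_mem _ (fun i _ => kap_mem_TT Ω S W hA h5 s hs i j₀)
    · have h4 : kap Ω S s ((ev Ω j₀) ^ (Fintype.card Ω)) = 1 := by
        apply Prod.ext
        · apply SemidirectProduct.ext
          · funext i
            change s ^ ((Fintype.card Ω • (Pi.single j₀ (1 : ℤ) : Ω → ℤ)) i) = 1
            rw [Pi.smul_apply, nsmul_eq_mul, zpow_mul, zpow_natCast, hS s hs, one_zpow]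
          · rfl
        · rfl
      rw [Subgroup.mem_comap, h4]
      exact Subgroup.one_mem _
  rw [h1]
  exact h3

theorem of_D_mem_TT (W : Set (FreeGroup ℕ)) (hV : InVariety W (E ⧸ S)) (e : E)
    (h : D Ω S e ∈ TT Ω S W) : e ∈ S := by
  obtain ⟨u, hu, hu2⟩ := h
  have h1 := verbal_map_le W ((MonoidHom.snd (Wr Ω E) (E ⧸ S)).comp (GG Ω S).subtype)
    (Subgroup.mem_map_of_mem _ hu)
  rw [verbal_eq_bot_of_inVariety hV, Subgroup.mem_bot] at h1
  have h2 : QuotientGroup.mk' S e = 1 := by
    have h3 : (D Ω S e).2 = 1 := by rw [← hu2]; exact h1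
    exact h3
  exact (QuotientGroup.eq_one_iff _).mp h2

/-- The key step: the quotient `E ⧸ S` embeds in a verbal quotient of a residually finite group. -/
theorem key (W : Set (FreeGroup ℕ)) (hA : verbal W (alternatingGroup Ω) = ⊤)
    (h5 : 5 ≤ Fintype.card Ω) (hS : ∀ s ∈ S, s ^ (Fintype.card Ω) = 1)
    (hV : InVariety W (E ⧸ S)) (hE : ResiduallyFinite E)
    (hRF : ∀ (G : Type) [Group G], ResiduallyFinite G → ResiduallyFinite (G ⧸ verbal W G)) :
    ResiduallyFinite (E ⧸ S) := by
  have : Nonempty Ω := Fintype.card_pos_iff.mp (by omega)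
  have h1 := hRF (GG Ω S) (rf_GG Ω S hE)
  let Ψ : E →* GG Ω S ⧸ verbal W (GG Ω S) :=
    (QuotientGroup.mk' _).comp ((D Ω S).codRestrict (GG Ω S) (D_mem Ω S))
  have hker : Ψ.ker = S := by
    ext e
    rw [MonoidHom.mem_ker]
    constructor
    · intro h
      have h2 : (D Ω S).codRestrict (GG Ω S) (D_mem Ω S) e ∈ verbal W (GG Ω S) :=
        (QuotientGroup.eq_one_iff _).mp h
      exact of_D_mem_TT Ω S W hV e ⟨_, h2, rfl⟩
    · intro h
      obtain ⟨u, hu, hu2⟩ := D_mem_TT Ω S W hA h5 hS e h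
      have h3 : u = (D Ω S).codRestrict (GG Ω S) (D_mem Ω S) e := Subtype.ext hu2
      rw [h3] at hu
      exact (QuotientGroup.eq_one_iff _).mpr hu
  refine rf_of_injective (QuotientGroup.lift S Ψ (fun x hx => ?_)) ?_ h1
  · rw [← hker] at hx
    exact hx
  · rw [injective_iff_map_eq_one]
    intro x
    obtain ⟨e, rfl⟩ := QuotientGroup.mk'_surjective S x
    intro h
    have h2 : Ψ e = 1 := h
    have h3 : e ∈ S := by
      rw [← hker]; exact h2
    exact (QuotientGroup.eq_one_iff _).mpr h3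

end wreath

/-! ### Large alternating groups are generated by values of nontrivial words -/

/-- Diagonal action of permutations. -/
def diag (B : Type) (m : ℕ) : Equiv.Perm B →* Equiv.Perm (Fin m × B) where
  toFun σ := Equiv.prodCongrRight (fun _ => σ)
  map_one' := rfl
  map_mul' _ _ := rfl

theorem exists_omega (W : Set (FreeGroup ℕ)) (w : FreeGroup ℕ) (hw : w ∈ W) (hw1 : w ≠ 1)
    (m : ℕ) (hm : 0 < m) : ∃ (Ω : Type) (_ : Fintype Ω) (_ : DecidableEq Ω),
      verbal W (alternatingGroup Ω) = ⊤ ∧ 5 ≤ Fintype.card Ω ∧ m ∣ Fintype.card Ω := by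
  obtain ⟨B, hB1, hB2, φ, hφ⟩ := free_sep w hw1
  have hBn : Nonempty B := by
    by_contra h
    rw [not_nonempty_iff] at h
    exact hφ (Subsingleton.elim _ _)
  have hcB : 0 < Fintype.card B := Fintype.card_pos
  have hcard : Fintype.card (Fin (10 * m) × B) = 10 * m * Fintype.card B := by
    rw [Fintype.card_prod, Fintype.card_fin]
  have h5 : 5 ≤ Fintype.card (Fin (10 * m) × B) := by
    rw [hcard]
    nlinarith
  refine ⟨Fin (10 * m) × B, inferInstance, inferInstance, ?_, h5, ?_⟩
  · have hs : IsSimpleGroup (alternatingGroup (Fin (10 * m) × B)) :=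
      alternatingGroup.isSimpleGroup (by rw [Nat.card_eq_fintype_card]; exact h5)
    rcases IsSimpleGroup.eq_bot_or_eq_top_of_normal
      (verbal W (alternatingGroup (Fin (10 * m) × B))) inferInstance with h | h
    · exfalso
      have hmem : ∀ σ : Equiv.Perm B, diag B (10 * m) σ ∈ alternatingGroup (Fin (10 * m) × B) := by
        intro σ
        rw [Equiv.Perm.mem_alternatingGroup]
        have h1 : Equiv.Perm.sign (diag B (10 * m) σ) = ∏ _k : Fin (10 * m), Equiv.Perm.sign σ :=
          Equiv.Perm.sign_prodCongrRight (fun _ => σ)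
        rw [h1, Finset.prod_const, Finset.card_univ, Fintype.card_fin,
          show 10 * m = 2 * (5 * m) by ring, pow_mul]
        simp
      let ψ : FreeGroup ℕ →* alternatingGroup (Fin (10 * m) × B) :=
        ((diag B (10 * m)).codRestrict _ hmem).comp φ
      have h2 : ψ w ∈ verbal W (alternatingGroup (Fin (10 * m) × B)) := by
        apply Subgroup.subset_closure
        refine ⟨w, hw, fun i => ψ (FreeGroup.of i), ?_⟩
        have : FreeGroup.lift (fun i => ψ (FreeGroup.of i)) = ψ := by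
          refine FreeGroup.ext_hom _ _ (fun i => ?_)
          rw [FreeGroup.lift_apply_of]
        rw [this]
      rw [h, Subgroup.mem_bot] at h2
      apply hφ
      have h3 : diag B (10 * m) (φ w) = 1 := congrArg Subtype.val h2
      ext b
      have h4 := congrArg (fun τ : Equiv.Perm (Fin (10 * m) × B) => τ (⟨0, by omega⟩, b)) h3
      exact congrArg Prod.snd h4
    · exact h
  · rw [hcard]
    exact ⟨10 * Fintype.card B, by ring⟩

/-! ### The case of infinite exponent -/

/-- The product of cyclic 2-groups of growing order. -/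
abbrev E2 : Type := (i : ℕ) → Multiplicative (ZMod (2 ^ (i + 1)))

theorem rf_E2 : ResiduallyFinite E2 := by
  apply residuallyFinite_of_forall_exists_finite_monoidHom
  intro g hg
  have h1 : ∃ i, g i ≠ 1 := by
    by_contra hc
    push Not at hc
    exact hg (funext hc)
  obtain ⟨i, hi⟩ := h1
  exact ⟨Multiplicative (ZMod (2 ^ (i + 1))), inferInstance, inferInstance, Pi.evalMonoidHom _ i, hi⟩

/-- Elements of order at most two with finite support. -/
def S2 : Subgroup E2 where
  carrier := {x | x ^ 2 = 1 ∧ ∃ k, ∀ i, k ≤ i → x i = 1}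
  one_mem' := ⟨one_pow 2, 0, fun _ _ => rfl⟩
  mul_mem' := by
    rintro x y ⟨hx, k, hk⟩ ⟨hy, l, hl⟩
    refine ⟨by rw [mul_pow, hx, hy, one_mul], max k l, fun i hi => ?_⟩
    rw [Pi.mul_apply, hk i (le_trans (le_max_left _ _) hi), hl i (le_trans (le_max_right _ _) hi),
      one_mul]
  inv_mem' := by
    rintro x ⟨hx, k, hk⟩
    exact ⟨by rw [inv_pow, hx, inv_one], k, fun i hi => by rw [Pi.inv_apply, hk i hi, inv_one]⟩

/-- The element all of whose coordinates have order two. -/
def z2 : E2 := fun i => Multiplicative.ofAdd ((2 ^ i : ℕ) : ZMod (2 ^ (i + 1)))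

theorem z2_apply_ne (i : ℕ) : z2 i ≠ 1 := by
  intro h
  have h1 : ((2 ^ i : ℕ) : ZMod (2 ^ (i + 1))) = 0 := h
  rw [ZMod.natCast_eq_zero_iff] at h1
  have h2 := Nat.le_of_dvd (by positivity) h1
  have h3 : 2 ^ i < 2 ^ (i + 1) := Nat.pow_lt_pow_right (by norm_num) (by omega)
  omega

theorem z2_sq : z2 ^ 2 = 1 := by
  funext i
  have h1 : (2 : ℕ) • ((2 ^ i : ℕ) : ZMod (2 ^ (i + 1))) = 0 := by
    rw [nsmul_eq_mul, ← Nat.cast_mul, ← pow_succ', ZMod.natCast_self]
  exact h1

/-- A root of the tail of `z2`. -/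
def y2 (k : ℕ) : E2 := fun i =>
  if k ≤ i then Multiplicative.ofAdd ((2 ^ (i - k) : ℕ) : ZMod (2 ^ (i + 1))) else 1

theorem y2_pow (k : ℕ) : z2 * ((y2 k) ^ (2 ^ k))⁻¹ ∈ S2 := by
  have h : ∀ i, k ≤ i → ((y2 k) ^ (2 ^ k)) i = z2 i := by
    intro i hi
    rw [Pi.pow_apply]
    unfold y2 z2
    rw [if_pos hi]
    have h1 : (2 ^ k : ℕ) • ((2 ^ (i - k) : ℕ) : ZMod (2 ^ (i + 1))) =
        ((2 ^ i : ℕ) : ZMod (2 ^ (i + 1))) := by
      rw [nsmul_eq_mul, ← Nat.cast_mul, ← pow_add, Nat.add_sub_cancel' hi]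
    exact h1
  have h' : ∀ i, ¬ k ≤ i → ((y2 k) ^ (2 ^ k)) i = 1 := by
    intro i hi
    rw [Pi.pow_apply]
    unfold y2
    rw [if_neg hi, one_pow]
  refine ⟨?_, k, ?_⟩
  · funext i
    have hz := congrFun z2_sq i
    rw [Pi.pow_apply] at hz
    rw [Pi.pow_apply, Pi.mul_apply, Pi.inv_apply]
    by_cases hi : k ≤ i
    · rw [h i hi, mul_inv_cancel, one_pow]
      rfl
    · rw [h' i hi, inv_one, mul_one, hz]
  · intro i hi
    rw [Pi.mul_apply, Pi.inv_apply, h i hi, mul_inv_cancel]

theorem not_rf_E2 : ¬ ResiduallyFinite (E2 ⧸ S2) := by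
  intro hrf
  rw [residuallyFinite_iff_forall_finiteIndexNormalSubgroup] at hrf
  have h1 : (QuotientGroup.mk' S2 z2) = 1 := by
    apply hrf
    intro K
    have hpos : 0 < K.toSubgroup.index := Nat.pos_of_ne_zero Subgroup.FiniteIndex.index_ne_zero
    obtain ⟨k, m, hm, hkm⟩ := Nat.exists_eq_two_pow_mul_odd hpos.ne'
    have h2 : QuotientGroup.mk' S2 z2 = QuotientGroup.mk' S2 ((y2 k) ^ (2 ^ k)) := by
      rw [← mul_inv_eq_one, ← map_inv, ← map_mul]
      exact (QuotientGroup.eq_one_iff _).mpr (y2_pow k)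
    have h3 : (QuotientGroup.mk' S2 z2) ^ m ∈ K.toSubgroup := by
      rw [h2, ← map_pow, ← pow_mul, map_pow, ← hkm]
      exact Subgroup.pow_index_mem K.toSubgroup _
    have h4 : (QuotientGroup.mk' S2 z2) ^ 2 = 1 := by rw [← map_pow, z2_sq, map_one]
    obtain ⟨l, hl⟩ := hm
    rw [hl, pow_add, pow_mul, h4, one_pow, one_mul, pow_one] at h3
    exact h3
  obtain ⟨-, k, hk⟩ := (QuotientGroup.eq_one_iff _).mp h1
  exact z2_apply_ne k (hk k le_rfl)

/-- The exponent vector of a word. -/
noncomputable def expo : FreeGroup ℕ →* Multiplicative (ℕ →₀ ℤ) :=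
  FreeGroup.lift (fun i => Multiplicative.ofAdd (Finsupp.single i 1))

theorem lift_comm_eq {A : Type} [CommGroup A] (f : ℕ → A) (w : FreeGroup ℕ) (hw : expo w = 1) :
    FreeGroup.lift f w = 1 := by
  let L : (ℕ →₀ ℤ) →+ Additive A :=
    Finsupp.liftAddHom (fun i => zmultiplesHom (Additive A) (Additive.ofMul (f i)))
  have h : FreeGroup.lift f = (AddMonoidHom.toMultiplicativeLeft L).comp expo := by
    refine FreeGroup.ext_hom _ _ (fun i => ?_)
    rw [MonoidHom.comp_apply, expo, FreeGroup.lift_apply_of, FreeGroup.lift_apply_of]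
    simp [L, AddMonoidHom.toMultiplicativeLeft]
  rw [h, MonoidHom.comp_apply, hw, map_one]

theorem lift_single {G : Type} [Group G] (g : G) (i : ℕ) (w : FreeGroup ℕ) :
    FreeGroup.lift (fun j => if j = i then g else 1) w =
      g ^ ((Multiplicative.toAdd (expo w) : ℕ →₀ ℤ) i) := by
  have h : FreeGroup.lift (fun j => if j = i then g else 1) =
      (zpowersHom G g).comp ((AddMonoidHom.toMultiplicative (Finsupp.applyAddHom i)).comp expo) := by
    refine FreeGroup.ext_hom _ _ (fun j => ?_)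
    rw [MonoidHom.comp_apply, MonoidHom.comp_apply, expo, FreeGroup.lift_apply_of,
      FreeGroup.lift_apply_of]
    by_cases hj : j = i
    · subst hj; simp
    · simp [hj]
  rw [h]
  rfl

/-- In a variety of infinite exponent with the property, contradiction. -/
theorem exists_exponent (W : Set (FreeGroup ℕ)) (w₀ : FreeGroup ℕ) (hw₀ : w₀ ∈ W) (hw₁ : w₀ ≠ 1)
    (hRF : ∀ (G : Type) [Group G], ResiduallyFinite G → ResiduallyFinite (G ⧸ verbal W G)) :
    ∃ m : ℕ, 0 < m ∧ ∀ (G : Type) [Group G], InVariety W G → ∀ g : G, g ^ m = 1 := by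
  by_cases h : ∀ w ∈ W, expo w = 1
  · exfalso
    obtain ⟨Ω, h1, h2, hA, h5, hd⟩ := exists_omega W w₀ hw₀ hw₁ 2 (by norm_num)
    have hV : InVariety W (E2 ⧸ S2) := fun w hw f => lift_comm_eq f w (h w hw)
    have hS : ∀ s ∈ S2, s ^ (Fintype.card Ω) = 1 := by
      rintro s ⟨hs, -⟩
      obtain ⟨c, hc⟩ := hd
      rw [hc, pow_mul, hs, one_pow]
    exact not_rf_E2 (key Ω S2 W hA h5 hS hV rf_E2 hRF)
  · push Not at h
    obtain ⟨w, hw, hw1⟩ := h
    have h1 : ∃ i, (Multiplicative.toAdd (expo w) : ℕ →₀ ℤ) i ≠ 0 := by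
      by_contra hc
      push Not at hc
      apply hw1
      have : (Multiplicative.toAdd (expo w) : ℕ →₀ ℤ) = 0 := Finsupp.ext hc
      exact this
    obtain ⟨i, hi⟩ := h1
    refine ⟨((Multiplicative.toAdd (expo w) : ℕ →₀ ℤ) i).natAbs, Int.natAbs_pos.mpr hi, ?_⟩
    intro G _ hG g
    have h2 := hG w hw (fun j => if j = i then g else 1)
    rw [lift_single] at h2
    rcases Int.natAbs_eq ((Multiplicative.toAdd (expo w) : ℕ →₀ ℤ) i) with h3 | h3
    · rw [h3, zpow_natCast] at h2
      exact h2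
    · rw [h3, zpow_neg, zpow_natCast, inv_eq_one] at h2
      exact h2

/-- **Main theorem.** A variety of groups `V` (defined by a set `W` of laws) has the property that
`G/V(G)` is residually finite for every residually finite group `G` if and only if `V` is the
variety of all groups (all laws in `W` are trivial) or every group in `V` is residually finite. -/
theorem result (W : Set (FreeGroup ℕ)) :
    (∀ (G : Type) [Group G], ResiduallyFinite G → ResiduallyFinite (G ⧸ verbal W G)) ↔
      ((∀ w ∈ W, w = 1) ∨ ∀ (H : Type) [Group H], InVariety W H → ResiduallyFinite H) := by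
  constructor
  · intro hRF
    by_cases hW : ∀ w ∈ W, w = 1
    · exact Or.inl hW
    · right
      push Not at hW
      obtain ⟨w₀, hw₀, hw₁⟩ := hW
      intro H _ hH
      obtain ⟨m, hm, hexp⟩ := exists_exponent W w₀ hw₀ hw₁ hRF
      obtain ⟨Ω, h1, h2, hA, h5, hd⟩ := exists_omega W w₀ hw₀ hw₁ m hm
      -- the relatively free group on the set `H`
      have hE : ResiduallyFinite (FreeGroup H ⧸ verbal W (FreeGroup H)) := hRF _ free_rf
      have hEV : InVariety W (FreeGroup H ⧸ verbal W (FreeGroup H)) := inVariety_quotient W _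
      let π : FreeGroup H ⧸ verbal W (FreeGroup H) →* H :=
        QuotientGroup.lift _ (FreeGroup.lift (id : H → H)) (fun x hx => by
          have h3 := verbal_map_le W (FreeGroup.lift (id : H → H)) (Subgroup.mem_map_of_mem _ hx)
          rw [verbal_eq_bot_of_inVariety hH, Subgroup.mem_bot] at h3
          exact h3)
      have hπ : Function.Surjective π := by
        intro h
        refine ⟨QuotientGroup.mk' _ (FreeGroup.of h), ?_⟩
        change FreeGroup.lift (id : H → H) (FreeGroup.of h) = h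
        rw [FreeGroup.lift_apply_of]
        rfl
      let e := QuotientGroup.quotientKerEquivOfSurjective π hπ
      have hV : InVariety W ((FreeGroup H ⧸ verbal W (FreeGroup H)) ⧸ π.ker) := by
        intro w hw f
        apply e.injective
        have := lift_comp e.toMonoidHom f w
        change e (FreeGroup.lift f w) = _ at this
        rw [this, hH w hw, map_one]
      have hS : ∀ s ∈ π.ker, s ^ (Fintype.card Ω) = 1 := by
        intro s _
        obtain ⟨c, hc⟩ := hd
        rw [hc, pow_mul, hexp _ hEV s, one_pow]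
      have h3 := key Ω π.ker W hA h5 hS hV hE hRF
      exact rf_of_injective e.symm.toMonoidHom e.symm.injective h3
  · rintro (h | h) G _ hG
    · have h1 : verbal W G = ⊥ := by
        apply verbal_eq_bot_of_inVariety
        intro w hw f
        rw [h w hw, map_one]
      refine rf_of_injective (QuotientGroup.lift (verbal W G) (MonoidHom.id G)
        (fun x hx => by rw [h1] at hx; exact hx)) ?_ hG
      rw [injective_iff_map_eq_one]
      intro x
      obtain ⟨g, rfl⟩ := QuotientGroup.mk'_surjective (verbal W G) x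
      intro h2
      have h3 : g = 1 := h2
      rw [h3, map_one]
    · exact h _ (inVariety_quotient W G)

end Pool.Agent.Results.MP_9fd99d_al.VerbalQuotientRF
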